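import Pool.Agent.H381R4.BP.Stubs
import Pool.Agent.H410R3.CMBMP

/-!
# Gaussian domination of the bump products (task GDO of the project BP, helper488)
-/

set_option autoImplicit false
open MeasureTheory Matrix Filter Topology
open scoped ENNReal BigOperators Pointwise

namespace Pool.Agent.H488BP

open Pool.Agent.H381CM Pool.Agent.H381BP

theorem quad_lower {d : ℕ} {ι : Type} [Fintype ι] (u : ι → V d) (hu : Spans u) :
    ∃ c : ℝ, 0 < c ∧ ∀ x : V d, c * ∑ i, x i ^ 2 ≤ ∑ k, (u k ⬝ᵥ x) ^ 2 := by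
  classical
  let f : V d →ₗ[ℝ] (ι → ℝ) :=
    { toFun := fun x k => u k ⬝ᵥ x
      map_add' := fun x y => by
        funext k
        simp [dotProduct_add]
      map_smul' := fun c x => by
        funext k
        simp [dotProduct_smul] }
  have hker : LinearMap.ker f = ⊥ := by
    rw [LinearMap.ker_eq_bot']
    intro x hx
    refine hu x fun k => ?_
    exact congrFun hx k
  obtain ⟨K, _, hK⟩ := LinearMap.exists_antilipschitzWith f hker
  have hnorm : ∀ x : V d, ‖x‖ ≤ K * ‖f x‖ := by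
    intro x
    have := hK.le_mul_dist x 0
    simpa [dist_eq_norm] using this
  refine ⟨1 / (d * K ^ 2 + 1), by positivity, fun x => ?_⟩
  have h1 : ∑ i, x i ^ 2 ≤ d * ‖x‖ ^ 2 := by
    have : ∀ i ∈ (Finset.univ : Finset (Fin d)), x i ^ 2 ≤ ‖x‖ ^ 2 := by
      intro i _
      rw [← sq_abs (x i)]
      exact pow_le_pow_left₀ (abs_nonneg _) (by simpa using norm_le_pi_norm x i) 2
    refine (Finset.sum_le_sum this).trans ?_
    rw [Finset.sum_const, Finset.card_univ, Fintype.card_fin, nsmul_eq_mul]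
  have h2 : ‖f x‖ ^ 2 ≤ ∑ k, (u k ⬝ᵥ x) ^ 2 := by
    have h3 : ‖f x‖ ≤ Real.sqrt (∑ k, (u k ⬝ᵥ x) ^ 2) := by
      rw [pi_norm_le_iff_of_nonneg (Real.sqrt_nonneg _)]
      intro k
      rw [Real.norm_eq_abs]
      apply Real.abs_le_sqrt
      exact Finset.single_le_sum (f := fun k => (u k ⬝ᵥ x) ^ 2) (fun i _ => sq_nonneg _)
        (Finset.mem_univ k)
    have h4 := pow_le_pow_left₀ (norm_nonneg _) h3 2
    rwa [Real.sq_sqrt (Finset.sum_nonneg fun k _ => sq_nonneg _)] at h4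
  have h5 : ‖x‖ ^ 2 ≤ K ^ 2 * ‖f x‖ ^ 2 := by
    rw [← mul_pow]
    exact pow_le_pow_left₀ (norm_nonneg _) (hnorm x) 2
  have hS : 0 ≤ ∑ k, (u k ⬝ᵥ x) ^ 2 := Finset.sum_nonneg fun k _ => sq_nonneg _
  rw [one_div, ← div_eq_inv_mul, div_le_iff₀ (by positivity)]
  have hd : (0 : ℝ) ≤ d := Nat.cast_nonneg _
  have h6 : (d : ℝ) * ‖x‖ ^ 2 ≤ d * (K ^ 2 * ‖f x‖ ^ 2) := mul_le_mul_of_nonneg_left h5 hd
  have h7 : (d : ℝ) * (K ^ 2 * ‖f x‖ ^ 2) ≤ d * (K ^ 2 * ∑ k, (u k ⬝ᵥ x) ^ 2) := by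
    gcongr
  nlinarith

theorem T_GDO : S_GDO := by
  intro d ι _ u hu
  have hB : S_BMP := Pool.Agent.H410CM.T_BMP
  obtain ⟨c, hc, hq⟩ := quad_lower u hu
  refine ⟨c, (2 * Real.exp 1) ^ (Fintype.card ι), hc, by positivity, fun j hj x => ⟨?_, ?_⟩⟩
  · exact Finset.prod_nonneg fun k _ => (hB.2.1 j hj _ (sq_nonneg _)).1
  · have h1 : gg u (fun _ => bump j) x ≤
        ∏ k, (2 * Real.exp 1 * Real.exp (-((u k ⬝ᵥ x) ^ 2))) :=
      Finset.prod_le_prod (fun k _ => (hB.2.1 j hj _ (sq_nonneg _)).1)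
        fun k _ => (hB.2.1 j hj _ (sq_nonneg _)).2.2
    refine h1.trans ?_
    rw [Finset.prod_mul_distrib, Finset.prod_const, ← Real.exp_sum, Finset.card_univ,
      Finset.sum_neg_distrib]
    refine mul_le_mul_of_nonneg_left (Real.exp_le_exp.mpr ?_) (by positivity)
    have := hq x
    linarith

end Pool.Agent.H488BP
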